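import Pool.Agent.H54.CX.Main
import Pool.Agent.H98.FJ.P.Ext0

/-!
# Actions on simply connected complexes of equilateral triangles with links of girth at least six: definitions
-/

set_option autoImplicit false

namespace Pool.Agent.H54.DD

open Pool.Agent.H98.FJ Pool.Agent.H54.CX

/-- all edges have length one -/
def Equi {V : Type} (X : Cpx V) : Prop := ∀ a b, X.Edge a b → X.len a b = 1

/-- the injective closed paths of the links have at least six edges -/
def Girth {V : Type} (X : Cpx V) : Prop :=
  ∀ (a : V) (n : ℕ) (b : ℕ → V), 3 ≤ n → b n = b 0 → (∀ i j, i < j → j < n → b i ≠ b j) →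
    (∀ i, i < n → X.Tri a (b i) (b (i + 1))) → 6 ≤ n

/-- `f` is injective on all vertex stabilisers -/
def StabInj {G Q : Type} [Group G] [Group Q] (V : Type) [MulAction G V] (f : G →* Q) : Prop :=
  ∀ (v : V) (g : G), g • v = v → f g = 1 → g = 1

/-- The group `G` acts by automorphisms on the simply connected complex `X` of equilateral triangles, whose links have
girth at least six. -/
structure Act (G : Type) [Group G] {V : Type} [MulAction G V] (X : Cpx V) : Prop where
  inv : X.Inv G
  sc : X.SC
  girth : Girth X
  equi : Equi X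

/-- in a complex of equilateral triangles the angles are `π / 3` -/
theorem Equi.ang {V : Type} {X : Cpx V} (hu : Equi X) {a b c : V} (h : X.Tri a b c) :
    X.ang a b c = Real.pi / 3 := by
  have h1 := hu a b (X.edge _ _ _ h)
  have h2 := hu b c (X.edge _ _ _ (X.rot _ _ _ h))
  have h3 := hu a c (X.symm _ _ (X.edge _ _ _ (X.rot _ _ _ (X.rot _ _ _ h))))
  unfold Cpx.ang
  rw [h1, h2, h3]
  rw [show ((1 : ℝ) ^ 2 + 1 ^ 2 - 1 ^ 2) / (2 * 1 * 1) = Real.cos (Real.pi / 3) by
    rw [Real.cos_pi_div_three]; norm_num]
  exact Real.arccos_cos (by positivity) (by linarith [Real.pi_pos])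

theorem Equi.link_iff {V : Type} {X : Cpx V} (hu : Equi X) : X.Link ↔ Girth X := by
  have key : ∀ (a : V) (n : ℕ) (b : ℕ → V), (∀ i, i < n → X.Tri a (b i) (b (i + 1))) →
      ∑ i ∈ Finset.range n, X.ang a (b i) (b (i + 1)) = n * (Real.pi / 3) := by
    intro a n b h
    rw [Finset.sum_congr rfl (fun i hi => hu.ang (h i (Finset.mem_range.1 hi)))]
    simp
  constructor
  · intro h a n b hn hb hi ht
    have h1 := h a n b hn hb hi ht
    rw [key a n b ht] at h1
    have h2 : (6 : ℝ) ≤ n := by
      have h3 := Real.pi_pos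
      by_contra h4
      push Not at h4
      nlinarith
    exact_mod_cast h2
  · intro h a n b hn hb hi ht
    have h1 := h a n b hn hb hi ht
    rw [key a n b ht]
    have h2 : (6 : ℝ) ≤ n := by exact_mod_cast h1
    have h3 := Real.pi_pos
    nlinarith

end Pool.Agent.H54.DD
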