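import Pool.Agent.H54.DD.Zcc
import Pool.Agent.H59.DD.Rem

/-!
# Groups generated by elements with fixed vertices
-/

set_option autoImplicit false

namespace Pool.Agent.H54.DD

open Pool.Agent.H98.FJ Pool.Agent.H54.CX Pool.Agent.H54.CX.CV Pool.Agent.H54.CX.Cls
  Pool.Agent.H59.DD

variable {N V : Type} [Group N] [MulAction N V] {X : Cpx V}

/-- a lift of an element which fixes the end point of `p` moves the neighbours of `p` as the element does -/
theorem smul_nb {Y : Cpx V} {hY : Y.Inv N} {x₀ : V} {g : Gam Y N hY x₀} {p q q' : CV Y x₀}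
    (hg : g • p = p) (hq : q.1 = p.1 * pt Y (en q)) (hq' : q'.1 = p.1 * pt Y (en q'))
    (h : g.g • en q = en q') : g • q = q' := by
  have h1 : g.q * act hY g.g p.1 = p.1 := congrArg Subtype.val hg
  refine CV.ext ?_
  rw [smul_val, hq, map_mul, ← mul_assoc, h1, act_pt, h, hq']

/-- the states of the vertices of the cover -/
theorem dev_cov {V' A : Type} {K : Arr V' A} {o : V'} {st : V → St K o} (hX : X.Inv N)
    (hd : Dev X N st) (F : Set V) (x₀ : V) :
    Dev (cov (sub X N F) x₀) (Gam (sub X N F) N (sub_inv hX F) x₀) (fun p => st (en p)) where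
  nb p q h := hd.nb _ _ h.1.1
  tri p q r h := hd.tri _ _ _ h.1.1
  inv g p := by
    show st (en (g • p)) = st (en p)
    rw [en_smul]; exact hd.inv _ _
  loc p q q' h h' e := by
    obtain ⟨g, hg, hg'⟩ := hd.loc _ _ _ h.1.1 h'.1.1 e
    obtain ⟨x, hx, hx'⟩ := exists_lift (sub_inv hX F) p p g hg
    exact ⟨x, hx', smul_nb hx' h.2 h'.2 (by rw [hx]; exact hg')⟩
  loc3 p q r r' h h' e := by
    obtain ⟨g, hg, hg', hg''⟩ := hd.loc3 _ _ _ _ h.1.1 h'.1.1 e
    obtain ⟨x, hx, hx'⟩ := exists_lift (sub_inv hX F) p p g hg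
    exact ⟨x, hx', smul_nb hx' h.2.1 h.2.1 (by rw [hx]; exact hg'),
      smul_nb hx' h.2.2 h'.2.2 (by rw [hx]; exact hg'')⟩

theorem full_cov (hX : X.Inv N) (hf : Full X N) (F : Set V) (x₀ : V) :
    Full (cov (sub X N F) x₀) (Gam (sub X N F) N (sub_inv hX F) x₀) := by
  intro p q h g hg hg' hg1 g' hg2
  have h1 : g.g • en p = en p := by rw [← en_smul, hg]
  have h2 : g.g • en q = en q := by rw [← en_smul, hg']
  have h3 : g'.g • en p = en p := by rw [← en_smul, hg2]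
  have h4 : g.g ≠ 1 := fun h5 => hg1 (stab_inj (p := p) hg (one_smul _ p) h5)
  exact smul_nb hg2 h.2 h.2 (hf _ _ h.1.1 g.g h1 h2 h4 g'.g h3)

theorem nmem {C : (G : Type) → [Group G] → Prop} (hC : Inherits C) (hE : Extension C) :
    NMem C := by
  intro N V _ _ X hX hsc hl h1 hcl hf hgen h hh
  obtain ⟨V', A, K, o, st, hd, -⟩ := exists_dev X hX hsc hl h1 hcl hgen
  have hA : Act N X := ⟨hX, hsc, (Equi.link_iff h1).1 hl, h1⟩
  obtain ⟨x₀⟩ := hsc.nonempty
  refine of_gam hC hA x₀ (fun F => ?_)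
  have hB := cov_act hA (F : Set V) x₀
  obtain ⟨F', hF', -, -, h3⟩ := cov_cc hA (F : Set V) F.finite_toSet x₀
  exact rem_main hC hE (cov (sub X N (F : Set V)) x₀) hB.inv hB.sc
    (hB.equi.link_iff.2 hB.girth) hB.equi (dev_cov hX hd _ x₀) (full_cov hX hf _ x₀) hC.int
    (h.comp (Gam.proj (sub X N (F : Set V)) N (sub_inv hX _) x₀))
    (fun g v => cov_stab hX _ x₀ h (fun v _ g h4 h5 => hh v g h4 h5) v g)
    ⟨F' ×ˢ (F' ×ˢ F'), hF'.prod (hF'.prod hF'), fun x y z h4 => by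
      obtain ⟨g, g1, g2, g3⟩ := h3 x y z h4
      exact ⟨g, g1, g2, g3⟩⟩

end Pool.Agent.H54.DD
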