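import Pool.Agent.H54.DD.Alg

/-!
# From the quotient and the kernel to the group

Let `P` act on the complex `X`, let `h : P → ℤ` be injective on the stabilisers and let `N` be a normal subgroup which
contains the elements of the stabilisers whose image is a multiple of `M`. If `P / N` and `N` are in the class, so is `P`:
use the homomorphism to `P / N × ℤ`.
-/

set_option autoImplicit false

namespace Pool.Agent.H54.DD

open Pool.Agent.H98.FJ Pool.Agent.H54.CX

variable {C : (G : Type) → [Group G] → Prop}

/-- two types -/
abbrev two (A B : Type) : Bool → Type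
  | true => A
  | false => B

instance twoGroup (A B : Type) [Group A] [Group B] : ∀ b, Group (two A B b)
  | true => (inferInstance : Group A)
  | false => (inferInstance : Group B)

theorem prod_mem (hC : Inherits C) {A B : Type} [Group A] [Group B] (hA : C A) (hB : C B) :
    C (A × B) := by
  have hG : ∀ b, C (two A B b) := fun b => by
    cases b
    · exact hB
    · exact hA
  have h := hC.pi Bool inferInstance (two A B) hG
  let g : A × B → ∀ b, two A B b := fun p b => match b with
    | true => p.1
    | false => p.2
  let φ : A × B →* ∀ b, two A B b :=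
    { toFun := g
      map_one' := by
        funext b
        cases b <;> rfl
      map_mul' := by
        intro p q
        funext b
        cases b <;> rfl }
  refine hC.of_injective φ ?_ h
  intro p q hpq
  have h1 : g p = g q := hpq
  exact Prod.ext (congrFun h1 true) (congrFun h1 false)

theorem trick (hC : Inherits C) (hE : Extension C) (h2 : Cat2 C) {P V : Type} [Group P]
    [MulAction P V] {X : Cpx V} (hX : Act P X) (h : P →* Multiplicative ℤ) (hh : StabInj V h)
    (M : ℕ) (hM : 0 < M) (N : Subgroup P) [N.Normal]
    (hN : ∀ (v : V) (g : P), g • v = v → (∃ k : ℤ, Multiplicative.toAdd (h g) = M * k) → g ∈ N)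
    (hQ : C (P ⧸ N)) (hNC : C N) : C P := by
  refine ext_zpowers hC hE ((QuotientGroup.mk' N).prod h) (prod_mem hC hQ hC.int) ?_
  rintro ⟨a, n⟩
  set p : P →* (P ⧸ N) × Multiplicative ℤ := (QuotientGroup.mk' N).prod h with hp
  have hp1 : ∀ g, (p g).1 = QuotientGroup.mk' N g := fun g => rfl
  have hp2 : ∀ g, (p g).2 = h g := fun g => rfl
  by_cases ha : IsOfFinOrder a
  · -- a subgroup of finite index is contained in `N`
    let s : (Subgroup.zpowers (a, n)).comap p →* P ⧸ N :=
      (QuotientGroup.mk' N).comp (Subgroup.subtype _)
    have hle : s.range ≤ Subgroup.zpowers a := by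
      rintro _ ⟨x, rfl⟩
      obtain ⟨k, hk⟩ := Subgroup.mem_zpowers_iff.1 (Subgroup.mem_comap.1 x.2)
      refine Subgroup.mem_zpowers_iff.2 ⟨k, ?_⟩
      have h3 := congrArg Prod.fst hk
      exact h3
    have hz : Finite (Subgroup.zpowers a) := (finite_zpowers.2 ha).to_subtype
    have hr : Finite s.range := Finite.of_injective _ (Subgroup.inclusion_injective hle)
    refine hC.index _ s.ker (Subgroup.finiteIndex_ker s) ?_
    have hN' : ∀ x : s.ker, (x.1 : P) ∈ N := fun x =>
      (QuotientGroup.eq_one_iff _).1 (MonoidHom.mem_ker.1 x.2)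
    refine hC.of_injective (H := N)
      { toFun := fun x => ⟨(x.1 : P), hN' x⟩
        map_one' := rfl
        map_mul' := fun _ _ => rfl } ?_ hNC
    intro x y hxy
    exact Subtype.ext (Subtype.ext (congrArg (fun z : N => (z : P)) hxy))
  · refine of_proper hC h2 (hX.sub _) ?_
    intro v
    have key : ∀ x : MulAction.stabilizer ((Subgroup.zpowers (a, n)).comap p) v, x = 1 := by
      rintro ⟨⟨x, hx⟩, hxv⟩
      have hxv' : x • v = v := hxv
      obtain ⟨k, hk⟩ := Subgroup.mem_zpowers_iff.1 (Subgroup.mem_comap.1 hx)
      have h3 : a ^ k = QuotientGroup.mk' N x := congrArg Prod.fst hk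
      have h4 : n ^ k = h x := congrArg Prod.snd hk
      have hpow : ∀ j : ℕ, x ^ j • v = v := by
        intro j
        induction j with
        | zero => rw [pow_zero, one_smul]
        | succ j ih => rw [pow_succ, mul_smul, hxv', ih]
      have h5 : x ^ M ∈ N := by
        refine hN v _ (hpow M) ⟨Multiplicative.toAdd (h x), ?_⟩
        rw [map_pow, toAdd_pow, nsmul_eq_mul]
      have h6 : a ^ (k * M) = 1 := by
        rw [zpow_mul, h3, zpow_natCast, ← map_pow]
        exact (QuotientGroup.eq_one_iff _).2 h5
      have h7 : k * M = 0 := by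
        by_contra h8
        exact ha (isOfFinOrder_iff_zpow_eq_one.2 ⟨k * M, h8, h6⟩)
      have h8 : k = 0 := by
        rcases mul_eq_zero.1 h7 with h9 | h9
        · exact h9
        · exact absurd (by exact_mod_cast h9) hM.ne'
      have h9 : h x = 1 := by rw [← h4, h8, zpow_zero]
      have h10 : x = 1 := hh v x hxv' h9
      exact Subtype.ext (Subtype.ext h10)
    exact Finite.of_injective (fun _ => (0 : Fin 1)) (fun x y _ => by rw [key x, key y])

end Pool.Agent.H54.DD
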