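import Pool.Agent.H54.DD.QuoSC

/-!
# The action of the quotient group on the quotient complex
-/

set_option autoImplicit false

namespace Pool.Agent.H54.DD

open Pool.Agent.H98.FJ Pool.Agent.H54.CX Pool.Agent.H93.TR

variable {P V : Type} [Group P] [MulAction P V] {X : Cpx V}

/-- the quotient group acts on the orbits -/
instance quoAction (N : Subgroup P) [N.Normal] : MulAction (P ⧸ N) (Orb N V) :=
  MulAction.compHom (Orb N V) (QuotientGroup.lift N (MulAction.toPermHom P (Orb N V)) (by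
    intro n hn
    ext i
    obtain ⟨a, rfl⟩ := orb_surj N i
    show n • orb N a = orb N a
    rw [smul_orb, orb_smul N hn]))

theorem mk_smul (N : Subgroup P) [N.Normal] (g : P) (a : V) :
    (g : P ⧸ N) • orb N a = orb N (g • a) := rfl

variable {N : Subgroup P} [N.Normal] {hX : X.Inv P} {hs : Simple X N}

theorem quo_inv : (quo X N hX hs).Inv (P ⧸ N) where
  edge := by
    rintro g i j ⟨a, b, rfl, rfl, h⟩
    obtain ⟨g, rfl⟩ := QuotientGroup.mk_surjective g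
    exact ⟨g • a, g • b, rfl, rfl, hX.edge g _ _ h⟩
  tri := by
    rintro g i j k ⟨a, b, c, rfl, rfl, rfl, h⟩
    obtain ⟨g, rfl⟩ := QuotientGroup.mk_surjective g
    exact ⟨g • a, g • b, g • c, rfl, rfl, rfl, hX.tri g _ _ _ h⟩
  len := fun _ _ _ _ => rfl

theorem quo_cocompact (hcc : X.Cocompact P) : (quo X N hX hs).Cocompact (P ⧸ N) := by
  obtain ⟨F, hF, h1, h2, h3⟩ := hcc
  refine ⟨orb N '' F, hF.image _, ?_, ?_, ?_⟩
  · intro i
    obtain ⟨a, rfl⟩ := orb_surj N i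
    obtain ⟨g, hg⟩ := h1 a
    exact ⟨(g : P ⧸ N), ⟨_, hg, rfl⟩⟩
  · rintro i j ⟨a, b, rfl, rfl, h⟩
    obtain ⟨g, hg, hg'⟩ := h2 a b h
    exact ⟨(g : P ⧸ N), ⟨_, hg, rfl⟩, ⟨_, hg', rfl⟩⟩
  · rintro i j k ⟨a, b, c, rfl, rfl, rfl, h⟩
    obtain ⟨g, hg, hg', hg''⟩ := h3 a b c h
    exact ⟨(g : P ⧸ N), ⟨_, hg, rfl⟩, ⟨_, hg', rfl⟩, ⟨_, hg'', rfl⟩⟩

/-- the stabilisers are finite -/
theorem quo_stab (h : P →* Multiplicative ℤ) (M : ℕ) (hM : 0 < M)
    (hN : ∀ (v : V) (g : P), g • v = v → (M : ℤ) ∣ Multiplicative.toAdd (h g) → g ∈ N)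
    (i : Orb N V) : Finite (MulAction.stabilizer (P ⧸ N) i) := by
  obtain ⟨a, rfl⟩ := orb_surj N i
  have hrep : ∀ s : MulAction.stabilizer (P ⧸ N) (orb N a), ∃ g : P, g • a = a ∧
      (g : P ⧸ N) = s.1 := by
    rintro ⟨s, hs⟩
    obtain ⟨g, rfl⟩ := QuotientGroup.mk_surjective s
    have h1 : orb N (g • a) = orb N a := hs
    obtain ⟨n, hn, hn'⟩ := (orb_eq_iff N _ _).1 h1.symm
    refine ⟨n * g, by rw [mul_smul, hn'], ?_⟩
    show ((n * g : P) : P ⧸ N) = (g : P ⧸ N)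
    rw [QuotientGroup.mk_mul, (QuotientGroup.eq_one_iff n).2 hn, one_mul]
  choose r hr1 hr2 using hrep
  have : NeZero M := ⟨hM.ne'⟩
  refine Finite.of_injective (fun s => ((Multiplicative.toAdd (h (r s)) : ℤ) : ZMod M)) ?_
  intro s t hst
  have h1 : (M : ℤ) ∣ Multiplicative.toAdd (h (r s)) - Multiplicative.toAdd (h (r t)) := by
    rw [← ZMod.intCast_zmod_eq_zero_iff_dvd, Int.cast_sub, sub_eq_zero]
    exact hst
  have h2 : (r t)⁻¹ * r s ∈ N := by
    refine hN a _ ?_ ?_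
    · rw [mul_smul, hr1 s]
      exact inv_smul_eq_iff.2 (hr1 t).symm
    · have h3 : Multiplicative.toAdd (h ((r t)⁻¹ * r s)) =
          Multiplicative.toAdd (h (r s)) - Multiplicative.toAdd (h (r t)) := by
        rw [map_mul, map_inv, toAdd_mul, toAdd_inv]; ring
      rw [h3]; exact h1
  apply Subtype.ext
  rw [← hr2 s, ← hr2 t]
  exact (QuotientGroup.eq.2 h2).symm

/-- the quotient group is in the class -/
theorem quo_mem {C : (G : Type) → [Group G] → Prop} (h2 : Cat2 C) (hA : Act P X)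
    (hcc : X.Cocompact P) (h : P →* Multiplicative ℤ) (M : ℕ) (hM : 0 < M)
    (hN : ∀ (v : V) (g : P), g • v = v → (M : ℤ) ∣ Multiplicative.toAdd (h g) → g ∈ N)
    (hgen : N ≤ Subgroup.closure {n : P | n ∈ N ∧ ∃ v : V, n • v = v}) (hcl : CL X N)
    (hs : Simple X N) : C (P ⧸ N) :=
  h2 _ _ (quo X N hA.inv hs) (quo_sc hA.sc hgen)
    (quo_equi.link_iff.2 (quo_girth hA.girth hcl)) quo_inv (quo_stab h M hM hN)
    (quo_cocompact hcc)

end Pool.Agent.H54.DD
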