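import Pool.Agent.H54.DD.Col

/-!
# Reduction to cocompact actions with a homomorphism to the integers
-/

set_option autoImplicit false

namespace Pool.Agent.H54.DD

open Pool.Agent.H98.FJ Pool.Agent.H54.CX Pool.Agent.H54.CX.CV

/-- The theorem for cocompact actions with a homomorphism to the integers which is injective on the stabilisers. -/
def ZCC (C : (G : Type) → [Group G] → Prop) : Prop :=
  ∀ (P V : Type) [Group P] [MulAction P V] (X : Cpx V), Act P X → X.Cocompact P →
    ∀ h : P →* Multiplicative ℤ, StabInj V h → C P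

variable {C : (G : Type) → [Group G] → Prop}

theorem Act.sub {G V : Type} [Group G] [MulAction G V] {X : Cpx V} (h : Act G X)
    (K : Subgroup G) : Act K X where
  inv :=
    { edge := fun g a b e => h.inv.edge (g : G) a b e
      tri := fun g a b c e => h.inv.tri (g : G) a b c e
      len := fun g a b e => h.inv.len (g : G) a b e }
  sc := h.sc
  girth := h.girth
  equi := h.equi

theorem of_int (hC : Inherits C) (hz : ZCC C) {P V : Type} [Group P] [MulAction P V] {X : Cpx V}
    (hX : Act P X) (h : P →* Multiplicative ℤ) (hh : StabInj V h) : C P := by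
  obtain ⟨x₀⟩ := hX.sc.nonempty
  exact of_gam hC hX x₀ (fun F => hz _ _ (cov (CX.sub X P (F : Set V)) x₀) (cov_act hX _ x₀)
    (cov_cc hX _ F.finite_toSet x₀) _ (cov_stab hX.inv _ x₀ h (fun v _ g h1 h2 => hh v g h1 h2)))

theorem of_proper (hC : Inherits C) (h2 : Cat2 C) {P V : Type} [Group P] [MulAction P V]
    {X : Cpx V} (hX : Act P X) (hs : ∀ v : V, Finite (MulAction.stabilizer P v)) : C P :=
  CX.main h2 hC.colim hX.inv hX.sc (hX.equi.link_iff.2 hX.girth) hs

/-- the preimage of a cyclic subgroup -/
theorem of_zpowers (hC : Inherits C) (h2 : Cat2 C) (hz : ZCC C) {G Q V : Type} [Group G] [Group Q]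
    [MulAction G V] {X : Cpx V} (hX : Act G X) (f : G →* Q) (hf : StabInj V f) (u : Q) :
    C ((Subgroup.zpowers u).comap f) := by
  let f' : (Subgroup.zpowers u).comap f →* Subgroup.zpowers u :=
    { toFun := fun x => ⟨f x.1, x.2⟩
      map_one' := Subtype.ext (map_one f)
      map_mul' := fun x y => Subtype.ext (map_mul f x.1 y.1) }
  have hf' : ∀ x, f' x = 1 → f x.1 = 1 := fun x hx => congrArg Subtype.val hx
  by_cases hu : IsOfFinOrder u
  · have hfin : Finite (Subgroup.zpowers u) := (finite_zpowers.2 hu).to_subtype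
    refine of_proper hC h2 (hX.sub _) ?_
    intro v
    refine Finite.of_injective (fun x => f' x.1) ?_
    intro x y hxy
    have h3 : f' (x.1 * y.1⁻¹) = 1 := by
      rw [map_mul, map_inv]
      exact mul_inv_eq_one.2 hxy
    have h4 : (x * y⁻¹).1.1 = 1 := hf v _ (x * y⁻¹).2 (hf' _ h3)
    have h5 : x * y⁻¹ = 1 := Subtype.ext (Subtype.ext h4)
    exact mul_inv_eq_one.1 h5
  · have hinj : Function.Injective (zpowersHom Q u) := by
      intro a b hab
      have h3 := injective_zpow_iff_not_isOfFinOrder.2 hu hab
      exact h3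
    have hr : ∀ q, q ∈ Subgroup.zpowers u → q ∈ (zpowersHom Q u).range := by
      intro q hq
      obtain ⟨n, rfl⟩ := Subgroup.mem_zpowers_iff.1 hq
      exact ⟨Multiplicative.ofAdd n, rfl⟩
    let e := MonoidHom.ofInjective hinj
    let h : (Subgroup.zpowers u).comap f →* Multiplicative ℤ :=
      e.symm.toMonoidHom.comp
        { toFun := fun x => ⟨f x.1, hr _ x.2⟩
          map_one' := Subtype.ext (map_one f)
          map_mul' := fun x y => Subtype.ext (map_mul f x.1 y.1) }
    refine of_int hC hz (hX.sub _) h ?_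
    intro v x hx hx1
    have h3 : (⟨f x.1, hr _ x.2⟩ : (zpowersHom Q u).range) = 1 :=
      (MulEquiv.map_eq_one_iff e.symm).1 hx1
    exact Subtype.ext (hf v _ hx (congrArg Subtype.val h3))

/-- in the extension property the preimages of the cyclic subgroups are enough -/
theorem ext_zpowers (hC : Inherits C) (hE : Extension C) {G Q : Type} [Group G] [Group Q]
    (f : G →* Q) (hQ : C Q) (hf : ∀ u : Q, C ((Subgroup.zpowers u).comap f)) : C G := by
  refine hE G f.range f.rangeRestrict f.rangeRestrict_surjective (hC.sub _ _ hQ) ?_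
  rintro W ⟨w, hw⟩
  let u : Q := ((w : f.range) : Q)
  let P : Subgroup G := W.comap f.rangeRestrict
  have hle : (Subgroup.zpowers u).comap f ≤ P := by
    intro x hx
    obtain ⟨n, hn⟩ := Subgroup.mem_zpowers_iff.1 (Subgroup.mem_comap.1 hx)
    refine Subgroup.mem_comap.2 ?_
    have h3 : f.rangeRestrict x = ((w ^ n : W) : f.range) := by
      apply Subtype.ext
      show f x = (((w ^ n : W) : f.range) : Q)
      rw [← hn]
      simp [u]
    rw [h3]
    exact (w ^ n).2
  let K : Subgroup P := ((Subgroup.zpowers u).comap f).subgroupOf P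
  have hK : C K :=
    hC.iso _ _ (Subgroup.subgroupOfEquivOfLe hle).symm (hf u)
  refine hC.index P K ?_ hK
  let r : P →* W :=
    { toFun := fun x => ⟨f.rangeRestrict x.1, x.2⟩
      map_one' := Subtype.ext (map_one _)
      map_mul' := fun x y => Subtype.ext (map_mul _ x.1 y.1) }
  have h5 : (Subgroup.zpowers w).comap r ≤ K := by
    intro x hx
    obtain ⟨n, hn⟩ := Subgroup.mem_zpowers_iff.1 (Subgroup.mem_comap.1 hx)
    refine Subgroup.mem_subgroupOf.2 (Subgroup.mem_comap.2 (Subgroup.mem_zpowers_iff.2 ⟨n, ?_⟩))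
    have h6 := congrArg (fun y : W => ((y : f.range) : Q)) hn
    simpa [u, r] using h6
  have h7 : ((Subgroup.zpowers w).comap r).FiniteIndex := by
    constructor
    rw [Subgroup.index_comap_of_surjective _ ?_]
    · exact hw.index_ne_zero
    · rintro ⟨y, hy⟩
      obtain ⟨x, hx⟩ := f.rangeRestrict_surjective y
      exact ⟨⟨x, by rw [Subgroup.mem_comap, hx]; exact hy⟩, Subtype.ext hx⟩
  exact Subgroup.finiteIndex_of_le h5

/-- actions with a homomorphism to a group in the class which is injective on the stabilisers -/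
theorem of_stabInj (hC : Inherits C) (hE : Extension C) (h2 : Cat2 C) (hz : ZCC C)
    {G Q V : Type} [Group G] [Group Q] [MulAction G V] {X : Cpx V} (hX : Act G X) (hQ : C Q)
    (f : G →* Q) (hf : StabInj V f) : C G :=
  ext_zpowers hC hE f hQ (fun u => of_zpowers hC h2 hz hX f hf u)

/-- The reduction of the theorem: for every finitely generated subgroup and every finite set of vertices there is a
homomorphism to a group in the class which is injective on the stabilisers of these vertices. -/
theorem main_of (hC : Inherits C) (hE : Extension C) (h2 : Cat2 C) (hz : ZCC C)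
    {G V : Type} [Group G] [MulAction G V] {X : Cpx V} (hX : Act G X)
    (hloc : ∀ H : Subgroup G, H.FG → ∀ F : Finset V, ∃ (Q : Type) (_ : Group Q) (f : H →* Q), C Q ∧
      ∀ v ∈ F, ∀ g : H, (g : G) • v = v → f g = 1 → g = 1) : C G := by
  classical
  refine hC.union (ι := Finset G) (fun s => Subgroup.closure (s : Set G)) ?_ ?_ ?_
  · intro s t hst
    exact Subgroup.closure_mono (by exact_mod_cast hst)
  · intro g
    exact ⟨{g}, Subgroup.subset_closure (by simp)⟩
  · intro s
    have hH := hX.sub (Subgroup.closure (s : Set G))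
    obtain ⟨x₀⟩ := hX.sc.nonempty
    refine of_gam hC hH x₀ ?_
    intro F
    obtain ⟨Q, _, f, hQ, hf⟩ := hloc (Subgroup.closure (s : Set G)) ⟨s, rfl⟩ (insert x₀ F)
    refine of_stabInj hC hE h2 hz (cov_act hH (F : Set V) x₀) hQ _
      (cov_stab hH.inv (F : Set V) x₀ f ?_)
    intro v hv g h3 h4
    refine hf v ?_ g h3 h4
    rcases hv with hv | hv
    · rw [hv]; exact Finset.mem_insert_self _ _
    · exact Finset.mem_insert_of_mem hv

end Pool.Agent.H54.DD
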