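import Pool.Agent.H54.DD.Alg

/-!
# The choice of the exponent

`P` acts cocompactly on `X` and `h : P → ℤ` is injective on the stabilisers. For a suitable `M > 0` the normal subgroup
`N` generated by the elements of the stabilisers whose image is a multiple of `M` has the property `CL`: a walk of length
at most five in the link of `x` from `y` to `n y`, where `n ∈ N` fixes `x`, passes through a vertex which is fixed by `n`.
-/

set_option autoImplicit false

namespace Pool.Agent.H54.DD

open Pool.Agent.H98.FJ Pool.Agent.H54.CX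

variable {P V : Type} [Group P] [MulAction P V]

/-- the property of the closed walks in the links of the quotient -/
def CL (X : Cpx V) (N : Subgroup P) : Prop :=
  ∀ (x : V) (n : P), n ∈ N → n • x = x → ∀ (k : ℕ) (y : ℕ → V), k ≤ 5 →
    (∀ i, i < k → X.Tri x (y i) (y (i + 1))) → y k = n • y 0 → ∃ i, i ≤ k ∧ n • y i = y i

/-- the elements of the stabilisers whose image is a multiple of `M` -/
def gens (V : Type) [MulAction P V] (h : P →* Multiplicative ℤ) (M : ℕ) : Set P :=
  {g | (∃ v : V, g • v = v) ∧ (M : ℤ) ∣ Multiplicative.toAdd (h g)}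

/-- the subgroup generated by these elements -/
def NM (V : Type) [MulAction P V] (h : P →* Multiplicative ℤ) (M : ℕ) : Subgroup P :=
  Subgroup.closure (gens V h M)

theorem toAdd_conj (h : P →* Multiplicative ℤ) (g x : P) :
    Multiplicative.toAdd (h (g * x * g⁻¹)) = Multiplicative.toAdd (h x) := by
  have h1 : h (g * x * g⁻¹) = h x := by rw [map_mul, map_mul, map_inv, mul_inv_cancel_comm]
  rw [h1]

instance NM_normal (h : P →* Multiplicative ℤ) (M : ℕ) : (NM V h M).Normal := by
  have hc : ∀ x ∈ gens V h M, ∀ g : P, g * x * g⁻¹ ∈ gens V h M := by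
    rintro x ⟨⟨v, hv⟩, hd⟩ g
    refine ⟨⟨g • v, ?_⟩, ?_⟩
    · rw [mul_smul, mul_smul, inv_smul_smul, hv]
    · rwa [toAdd_conj]
  constructor
  intro x hx g
  refine Subgroup.closure_induction (p := fun y _ => g * y * g⁻¹ ∈ NM V h M) ?_ ?_ ?_ ?_ hx
  · intro y hy
    exact Subgroup.subset_closure (hc y hy g)
  · rw [mul_one, mul_inv_cancel]; exact Subgroup.one_mem _
  · intro a b _ _ ha hb
    have := Subgroup.mul_mem _ ha hb
    simpa [mul_assoc] using this
  · intro a _ ha
    have := Subgroup.inv_mem _ ha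
    simpa [mul_assoc] using this

theorem dvd_of_mem (h : P →* Multiplicative ℤ) (M : ℕ) {g : P} (hg : g ∈ NM V h M) :
    (M : ℤ) ∣ Multiplicative.toAdd (h g) := by
  refine Subgroup.closure_induction (p := fun y _ => (M : ℤ) ∣ Multiplicative.toAdd (h y))
    ?_ ?_ ?_ ?_ hg
  · intro y hy
    exact hy.2
  · rw [map_one, toAdd_one]; exact dvd_zero _
  · intro a b _ _ ha hb
    rw [map_mul, toAdd_mul]
    exact dvd_add ha hb
  · intro a _ ha
    rw [map_inv, toAdd_inv]
    exact (dvd_neg).2 ha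

theorem mem_NM (h : P →* Multiplicative ℤ) (M : ℕ) {g : P} {v : V} (hv : g • v = v)
    (hg : (M : ℤ) ∣ Multiplicative.toAdd (h g)) : g ∈ NM V h M :=
  Subgroup.subset_closure ⟨⟨v, hv⟩, hg⟩

/-- no nontrivial element fixes both vertices -/
def Reg (P : Type) [Group P] {V : Type} [MulAction P V] (x y : V) : Prop :=
  ∀ g : P, g • x = x → g • y = y → g = 1

variable {X : Cpx V}

/-- a vertex of the link with trivial stabiliser has finite valency -/
theorem finite_tri (hcc : X.Cocompact P) {x y : V} (hr : Reg P x y) : {z | X.Tri x y z}.Finite := by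
  obtain ⟨F, hF, -, -, h3⟩ := hcc
  choose! g hg using fun z (hz : X.Tri x y z) => h3 x y z hz
  refine Set.Finite.of_finite_image (f := fun z => (g z • x, g z • y, g z • z)) ?_ ?_
  · refine (hF.prod (hF.prod hF)).subset ?_
    rintro _ ⟨z, hz, rfl⟩
    exact ⟨(hg z hz).1, (hg z hz).2.1, (hg z hz).2.2⟩
  · intro z hz w hw e
    simp only [Prod.mk.injEq] at e
    obtain ⟨e1, e2, e3⟩ := e
    have h4 : (g w)⁻¹ * g z = 1 := by
      refine hr _ ?_ ?_
      · rw [mul_smul, e1, inv_smul_smul]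
      · rw [mul_smul, e2, inv_smul_smul]
    have h5 : g z = g w := (inv_mul_eq_one.1 h4).symm
    rw [h5] at e3
    exact smul_left_cancel _ e3

/-- the ends of the walks of length `k` in the link of `x` which start at `y` and whose vertices, except possibly the
last one, have trivial stabilisers -/
def reach (P : Type) [Group P] {V : Type} [MulAction P V] (X : Cpx V) (x y : V) : ℕ → Set V
  | 0 => {y}
  | k + 1 => ⋃ z ∈ {z | z ∈ reach P X x y k ∧ Reg P x z}, {w | X.Tri x z w}

theorem finite_reach (hcc : X.Cocompact P) (x y : V) (k : ℕ) : (reach P X x y k).Finite := by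
  induction k with
  | zero => exact Set.finite_singleton _
  | succ k ih =>
    refine Set.Finite.biUnion (ih.subset fun z hz => hz.1) ?_
    intro z hz
    exact finite_tri hcc hz.2

/-- the images of the elements which fix `x` and map `y` to a vertex joined to it by a walk of length `k` -/
theorem finite_vals (hX : X.Inv P) (hcc : X.Cocompact P) (h : P →* Multiplicative ℤ) (k : ℕ) :
    {z : ℤ | ∃ (x : V) (n : P) (y : ℕ → V), n • x = x ∧ (∀ i, i ≤ k → Reg P x (y i)) ∧
      X.Edge x (y 0) ∧ (∀ i, i < k → X.Tri x (y i) (y (i + 1))) ∧ y k = n • y 0 ∧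
      Multiplicative.toAdd (h n) = z}.Finite := by
  obtain ⟨F, hF, -, h2, -⟩ := id hcc
  have hfin : (⋃ a ∈ F, ⋃ b ∈ F, ⋃ c ∈ reach P X a b k,
      {z : ℤ | Reg P a b ∧ ∃ n : P, n • a = a ∧ n • b = c ∧ Multiplicative.toAdd (h n) = z}).Finite := by
    refine hF.biUnion fun a _ => hF.biUnion fun b _ => (finite_reach hcc a b k).biUnion fun c _ => ?_
    refine Set.Subsingleton.finite ?_
    rintro z ⟨hr, n, h3, h4, rfl⟩ w ⟨-, m, h5, h6, rfl⟩
    have h7 : n⁻¹ * m = 1 := by
      refine hr _ ?_ ?_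
      · rw [mul_smul, h5, ← h3, inv_smul_smul, h3]
      · rw [mul_smul, h6, ← h4, inv_smul_smul]
    rw [inv_mul_eq_one.1 h7]
  refine hfin.subset ?_
  rintro z ⟨x, n, y, hn, hr, he, ht, hk, hz⟩
  obtain ⟨g, g1, g2⟩ := h2 x (y 0) he
  have hreg : ∀ i, i ≤ k → Reg P (g • x) (g • y i) := by
    intro i hi m hm1 hm2
    have h3 : g⁻¹ * m * g = 1 := by
      refine hr i hi _ ?_ ?_
      · rw [mul_smul, mul_smul, hm1, inv_smul_smul]
      · rw [mul_smul, mul_smul, hm2, inv_smul_smul]
    have := congrArg (fun t => g * t * g⁻¹) h3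
    simpa [mul_assoc] using this
  have htri : ∀ i, i < k → X.Tri (g • x) (g • y i) (g • y (i + 1)) := fun i hi =>
    hX.tri g _ _ _ (ht i hi)
  have hre : ∀ j, j ≤ k → g • y j ∈ reach P X (g • x) (g • y 0) j := by
    intro j
    induction j with
    | zero => intro _; exact rfl
    | succ j ih =>
      intro hj
      exact Set.mem_biUnion (x := g • y j) ⟨ih (by omega), hreg j (by omega)⟩ (htri j (by omega))
  refine Set.mem_biUnion g1 (Set.mem_biUnion g2 (Set.mem_biUnion (hre k le_rfl)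
    ⟨hreg 0 (by omega), g * n * g⁻¹, ?_, ?_, ?_⟩))
  · rw [mul_smul, mul_smul, inv_smul_smul, hn]
  · rw [mul_smul, mul_smul, inv_smul_smul, hk]
  · rw [toAdd_conj]; exact hz

/-- for every pair of vertices with nontrivial stabiliser the images of the elements of the stabiliser contain the
multiples of `M₁` -/
theorem exists_M1 (hcc : X.Cocompact P) (h : P →* Multiplicative ℤ)
    (hh : StabInj V h) : ∃ M₁ : ℕ, 0 < M₁ ∧ ∀ x y : V, X.Edge x y → ¬ Reg P x y →
      ∃ e : P, e • x = x ∧ e • y = y ∧ Multiplicative.toAdd (h e) ∣ (M₁ : ℤ) := by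
  classical
  obtain ⟨F, hF, -, h2, -⟩ := id hcc
  have hex : ∀ p : V × V, ∃ m : ℕ, 0 < m ∧ (¬ Reg P p.1 p.2 →
      ∃ e : P, e • p.1 = p.1 ∧ e • p.2 = p.2 ∧ Multiplicative.toAdd (h e) ∣ (m : ℤ)) := by
    rintro ⟨a, b⟩
    by_cases hr : Reg P a b
    · exact ⟨1, one_pos, fun h' => absurd hr h'⟩
    · unfold Reg at hr
      push Not at hr
      obtain ⟨e, h3, h4, h5⟩ := hr
      have h6 : Multiplicative.toAdd (h e) ≠ 0 := fun h7 => h5 (hh a e h3 h7)
      refine ⟨(Multiplicative.toAdd (h e)).natAbs, Int.natAbs_pos.2 h6, fun _ => ⟨e, h3, h4, ?_⟩⟩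
      exact Int.dvd_natAbs_self
  choose m hm hm' using hex
  refine ⟨∏ p ∈ (hF.prod hF).toFinset, m p, Finset.prod_pos fun p _ => hm p, ?_⟩
  intro x y he hr
  obtain ⟨g, g1, g2⟩ := h2 x y he
  have hr' : ¬ Reg P (g • x) (g • y) := by
    intro h'
    refine hr fun k hk1 hk2 => ?_
    have h3 : g * k * g⁻¹ = 1 := by
      refine h' _ ?_ ?_
      · rw [mul_smul, mul_smul, inv_smul_smul, hk1]
      · rw [mul_smul, mul_smul, inv_smul_smul, hk2]
    have := congrArg (fun t => g⁻¹ * t * g) h3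
    simpa [mul_assoc] using this
  obtain ⟨e, h3, h4, h5⟩ := hm' (g • x, g • y) hr'
  refine ⟨g⁻¹ * e * g, ?_, ?_, ?_⟩
  · rw [mul_smul, mul_smul]
    simp only at h3
    rw [h3, inv_smul_smul]
  · rw [mul_smul, mul_smul]
    simp only at h4
    rw [h4, inv_smul_smul]
  · have h6 := toAdd_conj h g⁻¹ e
    rw [inv_inv] at h6
    rw [h6]
    refine h5.trans ?_
    have h7 : m (g • x, g • y) ∣ ∏ p ∈ (hF.prod hF).toFinset, m p := by
      refine Finset.dvd_prod_of_mem m ?_
      rw [Set.Finite.mem_toFinset]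
      exact ⟨g1, g2⟩
    exact_mod_cast h7

theorem fix_of_dvd (h : P →* Multiplicative ℤ) (hh : StabInj V h) {x y : V} {e n : P}
    (h3 : e • x = x) (h4 : e • y = y) (hx : n • x = x)
    (h6 : Multiplicative.toAdd (h e) ∣ Multiplicative.toAdd (h n)) : n • y = y := by
  obtain ⟨j, hj⟩ := h6
  have hez : ∀ v : V, e • v = v → (e ^ j) • v = v := by
    intro v hv
    exact (MulAction.mem_stabilizer_iff.1 (Subgroup.zpow_mem _ (MulAction.mem_stabilizer_iff.2 hv) j))
  have h7 : n * (e ^ j)⁻¹ = 1 := by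
    refine hh x _ ?_ ?_
    · rw [mul_smul]
      have : (e ^ j)⁻¹ • x = x := inv_smul_eq_iff.2 (hez x h3).symm
      rw [this, hx]
    · rw [map_mul, map_inv, map_zpow]
      refine mul_inv_eq_one.2 ?_
      apply Multiplicative.toAdd.injective
      rw [hj, toAdd_zpow, smul_eq_mul, mul_comm]
  have h8 : n = e ^ j := mul_inv_eq_one.1 h7
  rw [h8]; exact hez _ h4

/-- an element of the subgroup which fixes an end of an edge with nontrivial stabiliser fixes the edge -/
def FullP (X : Cpx V) (N : Subgroup P) : Prop :=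
  ∀ x y, X.Edge x y → ∀ g ∈ N, g • x = x → g • y = y → g ≠ 1 → ∀ g' ∈ N, g' • x = x → g' • y = y

/-- the choice of the exponent -/
theorem exists_M (hX : X.Inv P) (hcc : X.Cocompact P) (h : P →* Multiplicative ℤ)
    (hh : StabInj V h) : ∃ M : ℕ, 0 < M ∧ CL X (NM V h M) ∧ FullP X (NM V h M) := by
  obtain ⟨M₁, hM₁, h1⟩ := exists_M1 hcc h hh
  have hfin := (Set.finite_le_nat 5).biUnion fun k _ => finite_vals hX hcc h k
  obtain ⟨B, hB⟩ := (hfin.image Int.natAbs).bddAbove
  refine ⟨M₁ * (B + 1), by positivity, ?_, ?_⟩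
  swap
  · intro x y he g hg hgx hgy hg1 g' hg' hgx'
    obtain ⟨e, h3, h4, h5⟩ := h1 x y he (fun hr => hg1 (hr g hgx hgy))
    refine fix_of_dvd h hh h3 h4 hgx' (h5.trans (dvd_trans ?_ (dvd_of_mem h _ hg')))
    push_cast
    exact dvd_mul_right _ _
  intro x n hn hx k y hk ht hy
  by_contra hcon
  push Not at hcon
  have hd := dvd_of_mem h _ hn
  have hn1 : n ≠ 1 := fun h2 => hcon 0 (by omega) (by rw [h2, one_smul])
  have hedge : ∀ i, i ≤ k → 0 < k → X.Edge x (y i) := by
    intro i hi hk0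
    rcases Nat.lt_or_ge i k with h2 | h2
    · exact X.edge _ _ _ (ht i h2)
    · have h3 : i = (k - 1) + 1 := by omega
      rw [h3]
      exact X.symm _ _ (X.edge _ _ _ (X.rot _ _ _ (X.rot _ _ _ (ht (k - 1) (by omega)))))
  have hk0 : 0 < k := by
    rcases Nat.eq_zero_or_pos k with h2 | h2
    · subst h2
      exact absurd hy.symm (hcon 0 le_rfl)
    · exact h2
  have hreg : ∀ i, i ≤ k → Reg P x (y i) := by
    intro i hi
    by_contra hr
    obtain ⟨e, h3, h4, h5⟩ := h1 x (y i) (hedge i hi hk0) hr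
    have h6 : Multiplicative.toAdd (h e) ∣ Multiplicative.toAdd (h n) := by
      refine h5.trans (dvd_trans ?_ hd)
      push_cast
      exact dvd_mul_right _ _
    exact hcon i hi (fix_of_dvd h hh h3 h4 hx h6)
  have h2 : Int.natAbs (Multiplicative.toAdd (h n)) ≤ B := by
    refine hB ⟨_, Set.mem_biUnion (x := k) (by exact hk) ⟨x, n, y, hx, hreg, hedge 0 (by omega) hk0, ht, hy,
      rfl⟩, rfl⟩
  have h3 : Multiplicative.toAdd (h n) = 0 := by
    refine Int.eq_zero_of_abs_lt_dvd hd ?_
    rw [Int.abs_eq_natAbs]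
    have h4 : B < M₁ * (B + 1) := by nlinarith
    exact_mod_cast lt_of_le_of_lt h2 h4
  exact hn1 (hh x n hx (Multiplicative.toAdd.injective h3))

end Pool.Agent.H54.DD
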