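import Pool.Agent.H54.DD.Defs

/-!
# Reduction to cocompact actions: the groups of the lifts
-/

set_option autoImplicit false

namespace Pool.Agent.H54.DD

open Pool.Agent.H98.FJ Pool.Agent.H54.CX Pool.Agent.H54.CX.CV

variable {G Q V : Type} [Group G] [Group Q] [MulAction G V] {X : Cpx V}

/-- every vertex of the cover lies over a translate of a vertex of `F` or of the base point -/
theorem en_mem (F : Set V) (x₀ : V) (p : CV (sub X G F) x₀) : ∃ g : G, g • en p ∈ insert x₀ F := by
  obtain ⟨q, b, h⟩ := p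
  rw [en_eq (p := ⟨q, b, h⟩) h]
  induction h with
  | base => exact ⟨1, by rw [one_smul]; exact Or.inl rfl⟩
  | @step b c q h h' ih =>
    rcases h' with h' | h'
    · rw [← h']; exact ih
    · obtain ⟨g, -, h2⟩ := h'.2
      exact ⟨g, Or.inr h2⟩

/-- the action of the group of the lifts on the cover of a subcomplex of finite type -/
theorem cov_act (h : Act G X) (F : Set V) (x₀ : V) :
    Act (Gam (sub X G F) G (sub_inv h.inv F) x₀) (cov (sub X G F) x₀) := by
  have h1 : Equi (sub X G F) := fun a b e => h.equi a b e.1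
  have h2 : Equi (cov (sub X G F) x₀) := fun p q e => h1 _ _ e.1
  exact ⟨cov_inv _ x₀, cov_sc,
    h2.link_iff.1 (cov_link (sub_link (h.equi.link_iff.2 h.girth) F) x₀), h2⟩

theorem cov_cc (h : Act G X) (F : Set V) (hF : F.Finite) (x₀ : V) :
    (cov (sub X G F) x₀).Cocompact (Gam (sub X G F) G (sub_inv h.inv F) x₀) := by
  refine cov_cocompact (sub_inv h.inv F) (insert x₀ F) (hF.insert x₀) (en_mem F x₀) ?_ ?_
  · intro a b e
    exact e.2.imp fun _ e => ⟨Or.inr e.1, Or.inr e.2⟩
  · intro a b c e
    exact e.2.imp fun _ e => ⟨Or.inr e.1, Or.inr e.2.1, Or.inr e.2.2⟩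

/-- a homomorphism which is injective on the stabilisers of the vertices of `F` and of the base point is injective on
the stabilisers of the cover -/
theorem cov_stab (hX : X.Inv G) (F : Set V) (x₀ : V) (f : G →* Q)
    (hf : ∀ v ∈ insert x₀ F, ∀ g : G, g • v = v → f g = 1 → g = 1) :
    StabInj (CV (sub X G F) x₀) (f.comp (Gam.proj (sub X G F) G (sub_inv hX F) x₀)) := by
  intro p x hx hfx
  obtain ⟨g, hg⟩ := en_mem (G := G) F x₀ p
  have h1 : x.g • en p = en p := by
    rw [← en_smul, hx]
  have h2 : f x.g = 1 := hfx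
  have h3 : g * x.g * g⁻¹ = 1 := by
    refine hf _ hg _ ?_ ?_
    · rw [mul_smul, mul_smul, inv_smul_smul, h1]
    · rw [map_mul, map_mul, h2, mul_one, map_inv, mul_inv_cancel]
  have h4 : x.g = 1 := by
    have := congrArg (fun y => g⁻¹ * y * g) h3
    simpa [mul_assoc] using this
  exact stab_inj (p := p) hx (one_smul _ p) h4

/-- the group is a directed colimit of the groups of the lifts -/
theorem of_gam {C : (G : Type) → [Group G] → Prop} (hC : Inherits C) (h : Act G X) (x₀ : V)
    (hF : ∀ F : Finset V, C (Gam (sub X G (F : Set V)) G (sub_inv h.inv _) x₀)) : C G :=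
  hC.colim _ _ _ _ _ (isColimit h.inv h.sc x₀) hF

end Pool.Agent.H54.DD
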