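import Pool.Agent.H54.DD.NM
import Pool.Agent.H34.BD.Cor

/-!
# The theorem on complexes of equilateral triangles and its corollary on polynomial rings
-/

set_option autoImplicit false

namespace Pool.Agent.H54.DD

open Pool.Agent.H98.FJ Pool.Agent.H54.CX Polynomial

variable {C : (G : Type) → [Group G] → Prop}

/-- the theorem on complexes of equilateral triangles -/
theorem complexes (hC : Inherits C) (hE : Extension C) (h2 : Cat2 C) (G V : Type) [Group G]
    [MulAction G V] (X : Cpx V) (hsc : X.SC) (hl : X.Link)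
    (h1 : ∀ a b, X.Edge a b → X.len a b = 1) (hX : X.Inv G)
    (hloc : ∀ H : Subgroup G, H.FG → ∀ F : Finset V, ∃ (Q : Type) (_ : Group Q) (f : H →* Q), C Q ∧
      ∀ v ∈ F, ∀ g : H, (g : G) • v = v → f g = 1 → g = 1) : C G :=
  main_of hC hE h2 (zcc hC hE h2 (nmem hC hE)) ⟨hX, hsc, (Equi.link_iff h1).1 hl, h1⟩ hloc

/-- polynomials in one variable -/
theorem gl_polynomial (hC : Inherits C) (hE : Extension C) (h2 : Cat2 C) (R : Type) [CommRing R]
    [IsDomain R] (hR : C (GL (Fin 3) R)) : C (GL (Fin 3) R[X]) := by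
  obtain ⟨V, _, X, h1, hsc, hl, hX, hF⟩ := H34.BD.data hC hR
  refine complexes hC hE h2 _ V X hsc hl (fun a b _ => h1 a b) hX ?_
  intro H _ F
  obtain ⟨Q, _, f, hQ, hf⟩ := hF (F : Set V) F.finite_toSet
  exact ⟨Q, inferInstance, f.comp H.subtype, hQ, fun v hv g hg hfg =>
    Subtype.ext (hf v hv g hg hfg)⟩

/-- polynomials in any number of variables -/
theorem gl_mvPolynomial (hC : Inherits C) (hE : Extension C) (h2 : Cat2 C) (R σ : Type)
    [CommRing R] [IsDomain R] (hR : C (GL (Fin 3) R)) : C (GL (Fin 3) (MvPolynomial σ R)) := by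
  classical
  have hfin : ∀ n, C (GL (Fin 3) (MvPolynomial (Fin n) R)) :=
    H34.BD.mv_fin hC (fun S _ _ hS => gl_polynomial hC hE h2 S hS) hR
  let φ : ∀ s : Finset σ, MvPolynomial s R →+* MvPolynomial σ R := fun s =>
    (MvPolynomial.rename (R := R) (Subtype.val : s → σ)).toRingHom
  have hφ : ∀ s, Function.Injective (φ s) := fun s =>
    MvPolynomial.rename_injective _ Subtype.val_injective
  let S : Finset σ → Subgroup (GL (Fin 3) (MvPolynomial σ R)) := fun s =>
    (Matrix.GeneralLinearGroup.map (n := Fin 3) (φ s)).range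
  refine hC.union S ?_ ?_ ?_
  · rintro s t hst _ ⟨g, rfl⟩
    refine ⟨Matrix.GeneralLinearGroup.map (n := Fin 3)
      (MvPolynomial.rename (R := R) (Set.inclusion (Finset.coe_subset.2 hst))).toRingHom g, ?_⟩
    apply Units.ext
    ext1 i j
    show MvPolynomial.rename _ (MvPolynomial.rename _ (g.val i j)) = MvPolynomial.rename _ (g.val i j)
    rw [MvPolynomial.rename_rename]
    rfl
  · intro g
    -- the entries of the matrix and of its inverse
    have hex : ∀ p : MvPolynomial σ R, ∃ s : Finset σ, ∀ t, s ⊆ t → p ∈ (φ t).range := by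
      intro p
      obtain ⟨s, q, hq⟩ := MvPolynomial.exists_finset_rename p
      refine ⟨s, fun t hst => ?_⟩
      refine ⟨MvPolynomial.rename (Set.inclusion (Finset.coe_subset.2 hst)) q, ?_⟩
      show MvPolynomial.rename _ (MvPolynomial.rename _ q) = p
      rw [MvPolynomial.rename_rename, hq]
      rfl
    choose s hs using hex
    let t : Finset σ := Finset.univ.biUnion fun i : Fin 3 => Finset.univ.biUnion fun j : Fin 3 =>
      s (g.val i j) ∪ s (g⁻¹.val i j)
    have h1 : ∀ i j, g.val i j ∈ (φ t).range := fun i j => hs _ t (by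
      intro x hx
      exact Finset.mem_biUnion.2 ⟨i, Finset.mem_univ _, Finset.mem_biUnion.2 ⟨j, Finset.mem_univ _,
        Finset.mem_union_left _ hx⟩⟩)
    have h2 : ∀ i j, g⁻¹.val i j ∈ (φ t).range := fun i j => hs _ t (by
      intro x hx
      exact Finset.mem_biUnion.2 ⟨i, Finset.mem_univ _, Finset.mem_biUnion.2 ⟨j, Finset.mem_univ _,
        Finset.mem_union_right _ hx⟩⟩)
    choose A hA using h1
    choose B hB using h2
    have hAB : ∀ (A B : Fin 3 → Fin 3 → MvPolynomial t R) (g h : GL (Fin 3) (MvPolynomial σ R)),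
        (∀ i j, φ t (A i j) = g.val i j) → (∀ i j, φ t (B i j) = h.val i j) → g * h = 1 →
        Matrix.of A * Matrix.of B = 1 := by
      intro A B g h hA hB hgh
      ext1 i j
      apply hφ t
      have h3 := congrArg (fun m : GL (Fin 3) (MvPolynomial σ R) => m.val i j) hgh
      simp only [Units.val_mul, Matrix.mul_apply, Units.val_one] at h3
      rw [Matrix.mul_apply, map_sum]
      simp only [map_mul, Matrix.of_apply, hA, hB]
      rw [h3, Matrix.one_apply, Matrix.one_apply]
      split
      · rw [map_one]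
      · rw [map_zero]
    refine ⟨t, ⟨⟨Matrix.of A, Matrix.of B, hAB A B g g⁻¹ hA hB (mul_inv_cancel g),
      hAB B A g⁻¹ g hB hA (inv_mul_cancel g)⟩, ?_⟩⟩
    apply Units.ext
    ext1 i j
    exact hA i j
  · intro s
    have h3 : C (GL (Fin 3) (MvPolynomial s R)) :=
      H34.BD.gl_of_injective hC
        (MvPolynomial.renameEquiv R (Finset.equivFin s)).toRingEquiv.toRingHom
        (MvPolynomial.renameEquiv R (Finset.equivFin s)).injective (hfin _)
    refine hC.iso _ _ (MonoidHom.ofInjective (f := Matrix.GeneralLinearGroup.map (n := Fin 3) (φ s))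
      ?_) h3
    intro g g' hg
    apply Units.ext
    ext1 i j
    apply hφ s
    have := congrArg (fun m : GL (Fin 3) (MvPolynomial σ R) => m.val i j) hg
    simpa using this

end Pool.Agent.H54.DD
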