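import Pool.Agent.H54.DD.ChM
import Pool.Agent.H93.TR.Defs

/-!
# The quotient complex
-/

set_option autoImplicit false

namespace Pool.Agent.H54.DD

open Pool.Agent.H98.FJ Pool.Agent.H54.CX Pool.Agent.H93.TR

variable {P V : Type} [Group P] [MulAction P V]

/-- the quotient has no loops and no double edges -/
structure Simple (X : Cpx V) (N : Subgroup P) : Prop where
  loop : ∀ a b, X.Edge a b → ∀ n ∈ N, n • a ≠ b
  double : ∀ x a b, X.Edge x a → X.Edge x b → ∀ n ∈ N, n • a = b → ∃ m ∈ N, m • x = x ∧ m • a = b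

theorem orb_smul (N : Subgroup P) {n : P} (hn : n ∈ N) (v : V) : orb N (n • v) = orb N v :=
  (orb_eq_iff N _ _).2 ⟨n, hn, rfl⟩

/-- the quotient complex -/
def quo (X : Cpx V) (N : Subgroup P) (_hX : X.Inv P) (hs : Simple X N) : Cpx (Orb N V) where
  Edge i j := ∃ a b, orb N a = i ∧ orb N b = j ∧ X.Edge a b
  Tri i j k := ∃ a b c, orb N a = i ∧ orb N b = j ∧ orb N c = k ∧ X.Tri a b c
  len _ _ := 1
  ne := by
    rintro i j ⟨a, b, rfl, rfl, h⟩ e
    obtain ⟨n, hn, hn'⟩ := (orb_eq_iff N _ _).1 e
    exact hs.loop _ _ (X.symm _ _ h) n hn hn'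
  symm := by
    rintro i j ⟨a, b, ha, hb, h⟩
    exact ⟨b, a, hb, ha, X.symm _ _ h⟩
  edge := by
    rintro i j k ⟨a, b, c, ha, hb, hc, h⟩
    exact ⟨a, b, ha, hb, X.edge _ _ _ h⟩
  rot := by
    rintro i j k ⟨a, b, c, ha, hb, hc, h⟩
    exact ⟨b, c, a, hb, hc, ha, X.rot _ _ _ h⟩
  swap := by
    rintro i j k ⟨a, b, c, ha, hb, hc, h⟩
    exact ⟨b, a, c, hb, ha, hc, X.swap _ _ _ h⟩
  len_symm := fun _ _ _ => rfl
  pos := fun _ _ _ => one_pos
  lt := fun _ _ _ _ => by norm_num

variable {X : Cpx V} {N : Subgroup P} {hX : X.Inv P} {hs : Simple X N}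

theorem quo_equi : Equi (quo X N hX hs) := fun _ _ _ => rfl

/-- edges of the quotient lift, with a given first vertex -/
theorem edge_lift {a : V} {j : Orb N V} (h : (quo X N hX hs).Edge (orb N a) j) :
    ∃ b, orb N b = j ∧ X.Edge a b := by
  obtain ⟨c, d, hc, hd, h⟩ := h
  obtain ⟨n, hn, hn'⟩ := (orb_eq_iff N a c).1 hc.symm
  refine ⟨n • d, by rw [orb_smul N hn, hd], ?_⟩
  rw [← hn']
  exact hX.edge n _ _ h

/-- triangles of the quotient lift, with a given first edge -/
theorem tri_lift {a b : V} {k : Orb N V} (hab : X.Edge a b)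
    (h : (quo X N hX hs).Tri (orb N a) (orb N b) k) : ∃ c, orb N c = k ∧ X.Tri a b c := by
  obtain ⟨a', b', c', ha, hb, hc, h⟩ := h
  obtain ⟨n, hn, hn'⟩ := (orb_eq_iff N a a').1 ha.symm
  have h1 : X.Tri a (n • b') (n • c') := by rw [← hn']; exact hX.tri n _ _ _ h
  obtain ⟨m, hm, hm'⟩ := (orb_eq_iff N b (n • b')).1 (by rw [orb_smul N hn, hb])
  obtain ⟨k, hk, hk1, hk2⟩ := hs.double a (n • b') b (X.edge _ _ _ h1) hab m hm hm'
  refine ⟨k • n • c', by rw [orb_smul N hk, orb_smul N hn, hc], ?_⟩
  have h2 := hX.tri k _ _ _ h1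
  rwa [hk1, hk2] at h2

/-- a path in the link of the quotient lifts to a path in the link -/
theorem link_lift (a : V) (n : ℕ) (b : ℕ → Orb N V)
    (h : ∀ i, i < n → (quo X N hX hs).Tri (orb N a) (b i) (b (i + 1))) (hn : 0 < n) :
    ∃ y : ℕ → V, (∀ i, i ≤ n → orb N (y i) = b i) ∧ X.Edge a (y 0) ∧
      ∀ i, i < n → X.Tri a (y i) (y (i + 1)) := by
  obtain ⟨y0, hy0, he0⟩ := edge_lift ((quo X N hX hs).edge _ _ _ (h 0 hn))
  have key : ∀ k, k ≤ n → ∃ y : ℕ → V, (∀ i, i ≤ k → orb N (y i) = b i) ∧ X.Edge a (y 0) ∧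
      X.Edge a (y k) ∧ ∀ i, i < k → X.Tri a (y i) (y (i + 1)) := by
    intro k
    induction k with
    | zero =>
      intro _
      refine ⟨fun _ => y0, ?_, he0, he0, fun i hi => absurd hi (by omega)⟩
      intro i hi
      rw [Nat.le_zero.1 hi]
      exact hy0
    | succ k ih =>
      intro hk
      obtain ⟨y, h1, h2, h3, h4⟩ := ih (by omega)
      have h5 := h k (by omega)
      rw [← h1 k le_rfl] at h5
      obtain ⟨c, hc, hc'⟩ := tri_lift h3 h5
      refine ⟨fun i => if i ≤ k then y i else c, ?_, ?_, ?_, ?_⟩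
      · intro i hi
        by_cases h6 : i ≤ k
        · simp only [if_pos h6]; exact h1 i h6
        · have h7 : i = k + 1 := by omega
          simp only [if_neg h6]; rw [hc, h7]
      · simp only [if_pos (Nat.zero_le k)]; exact h2
      · simp only [if_neg (Nat.not_succ_le_self k)]
        exact X.symm _ _ (X.edge _ _ _ (X.rot _ _ _ (X.rot _ _ _ hc')))
      · intro i hi
        rcases Nat.lt_or_ge i k with h6 | h6
        · simp only [if_pos h6.le, if_pos (Nat.succ_le_of_lt h6)]
          exact h4 i h6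
        · have : i = k := by omega
          subst this
          simp only [if_pos le_rfl, if_neg (Nat.not_succ_le_self i)]
          exact hc'
  obtain ⟨y, h1, h2, -, h4⟩ := key n le_rfl
  exact ⟨y, h1, h2, h4⟩

/-- the links of the quotient have girth at least six -/
theorem quo_girth (hg : Girth X) (hcl : CL X N) : Girth (quo X N hX hs) := by
  intro i n b hn hb hinj ht
  by_contra h6
  push Not at h6
  obtain ⟨a, rfl⟩ := orb_surj N i
  obtain ⟨y, h1, h2, h3⟩ := link_lift a n b ht (by omega)
  have hedge : ∀ i, i ≤ n → X.Edge a (y i) := by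
    intro i hi
    rcases Nat.lt_or_ge i n with h2 | h2
    · exact X.edge _ _ _ (h3 i h2)
    · have h4 : i = (n - 1) + 1 := by omega
      rw [h4]
      exact X.symm _ _ (X.edge _ _ _ (X.rot _ _ _ (X.rot _ _ _ (h3 (n - 1) (by omega)))))
  have h4 : orb N (y n) = orb N (y 0) := by rw [h1 n le_rfl, h1 0 (by omega), hb]
  obtain ⟨m', hm', hmy'⟩ := (orb_eq_iff N (y n) (y 0)).1 h4
  obtain ⟨m, hm, hma, hmy⟩ := hs.double a (y 0) (y n) h2 (hedge n le_rfl) m' hm' hmy'
  obtain ⟨i, hi, hmi⟩ := hcl a m hm hma n y (by omega) h3 hmy.symm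
  -- the closed path which starts at the fixed vertex
  let z : ℕ → V := fun j => if j + i ≤ n then y (j + i) else m • y (j + i - n)
  have hz : ∀ j, j < n → X.Tri a (z j) (z (j + 1)) := by
    intro j hj
    rcases Nat.lt_or_ge (j + i) n with h5 | h5
    · have e1 : z j = y (j + i) := if_pos h5.le
      have e2 : z (j + 1) = y (j + i + 1) := by
        show (if j + 1 + i ≤ n then _ else _) = _
        rw [if_pos (by omega), show j + 1 + i = j + i + 1 by omega]
      rw [e1, e2]
      exact h3 _ h5
    · have e1 : z j = m • y (j + i - n) := by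
        show (if j + i ≤ n then _ else _) = _
        by_cases h7 : j + i ≤ n
        · have h8 : j + i = n := by omega
          rw [if_pos h7, h8, Nat.sub_self]; exact hmy.symm
        · rw [if_neg h7]
      have e2 : z (j + 1) = m • y (j + i - n + 1) := by
        show (if j + 1 + i ≤ n then _ else _) = _
        rw [if_neg (by omega), show j + 1 + i - n = j + i - n + 1 by omega]
      rw [e1, e2]
      have h8 := hX.tri m _ _ _ (h3 (j + i - n) (by omega))
      rwa [hma] at h8
  have hzn : z n = z 0 := by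
    have e1 : z 0 = y i := by
      show (if 0 + i ≤ n then _ else _) = _
      rw [if_pos (by omega), zero_add]
    have e2 : z n = m • y i := by
      show (if n + i ≤ n then _ else _) = _
      by_cases h7 : n + i ≤ n
      · have h8 : i = 0 := by omega
        rw [if_pos h7, h8, add_zero]; exact hmy.symm
      · rw [if_neg h7, show n + i - n = i by omega]
    rw [e1, e2, hmi]
  have horb : ∀ j, j < n → orb N (z j) = b (if j + i < n then j + i else j + i - n) := by
    intro j hj
    by_cases h5 : j + i < n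
    · rw [if_pos h5]
      show orb N (if j + i ≤ n then _ else _) = _
      rw [if_pos h5.le, h1 _ h5.le]
    · rw [if_neg h5]
      show orb N (if j + i ≤ n then _ else _) = _
      by_cases h7 : j + i ≤ n
      · have h8 : j + i = n := by omega
        rw [if_pos h7, h8, Nat.sub_self, h1 n le_rfl, hb]
      · rw [if_neg h7, orb_smul N hm, h1 _ (by omega)]
  have h7 := hg a n z hn hzn ?_ hz
  · omega
  · intro j k hjk hk e
    have e1 := congrArg (orb N) e
    rw [horb j (by omega), horb k hk] at e1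
    have hne : (if j + i < n then j + i else j + i - n) ≠ (if k + i < n then k + i else k + i - n) := by
      split_ifs <;> omega
    have hl1 : (if j + i < n then j + i else j + i - n) < n := by split_ifs <;> omega
    have hl2 : (if k + i < n then k + i else k + i - n) < n := by split_ifs <;> omega
    rcases lt_or_gt_of_ne hne with h8 | h8
    · exact hinj _ _ h8 hl2 e1
    · exact hinj _ _ h8 hl1 e1.symm

end Pool.Agent.H54.DD
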