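import Pool.Agent.H54.DD.QuoAct
import Pool.Agent.H54.DD.Trick
import Pool.Agent.H59.DD.ExDev

/-!
# Cocompact actions with a homomorphism to the integers
-/

set_option autoImplicit false

namespace Pool.Agent.H54.DD

open Pool.Agent.H98.FJ Pool.Agent.H54.CX Pool.Agent.H93.TR

variable {C : (G : Type) → [Group G] → Prop}

/-- The interface with the chapter on the kernel: groups generated by elements with fixed vertices which act with the
closing property and with full stabilisers of the edges. -/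
def NMem (C : (G : Type) → [Group G] → Prop) : Prop :=
  ∀ (N V : Type) [Group N] [MulAction N V] (X : Cpx V), X.Inv N → X.SC → X.Link →
    H59.DD.Unit1 X → H59.DD.CL X N → H59.DD.Full X N →
    Subgroup.closure {n : N | ∃ v : V, n • v = v} = ⊤ →
    ∀ h : N →* Multiplicative ℤ, StabInj V h → C N

theorem closure_fix {P V : Type} [Group P] [MulAction P V] (h : P →* Multiplicative ℤ) (M : ℕ) :
    Subgroup.closure {n : NM V h M | ∃ v : V, n • v = v} = ⊤ := by
  rw [eq_top_iff]
  rintro ⟨g, hg⟩ -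
  refine Subgroup.closure_induction (p := fun x (hx : x ∈ Subgroup.closure (gens V h M)) =>
    (⟨x, hx⟩ : NM V h M) ∈ Subgroup.closure {n : NM V h M | ∃ v : V, n • v = v}) ?_ ?_ ?_ ?_ hg
  · rintro x ⟨⟨v, hv⟩, -⟩
    exact Subgroup.subset_closure ⟨v, hv⟩
  · exact Subgroup.one_mem _
  · intro a b ha hb h1 h2
    exact Subgroup.mul_mem _ h1 h2
  · intro a ha h1
    exact Subgroup.inv_mem _ h1

theorem zcc (hC : Inherits C) (hE : Extension C) (h2 : Cat2 C) (hN : NMem C) : ZCC C := by
  intro P V _ _ X hX hcc h hh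
  obtain ⟨M, hM, hcl, hfull⟩ := exists_M hX.inv hcc h hh
  have hgen : NM V h M ≤ Subgroup.closure {n : P | n ∈ NM V h M ∧ ∃ v : V, n • v = v} := by
    refine (Subgroup.closure_le _).2 ?_
    rintro g ⟨⟨v, hv⟩, hd⟩
    exact Subgroup.subset_closure ⟨mem_NM h M hv hd, v, hv⟩
  have hgen' := closure_fix (V := V) h M
  have hXN := hX.sub (NM V h M)
  have hl := hX.equi.link_iff.2 hX.girth
  have hcl' : H59.DD.CL X (NM V h M) := fun x n hn k y hk ht hy => hcl x n n.2 hn k y hk ht hy
  obtain ⟨V', A, K, o, st, hd, -⟩ := H59.DD.exists_dev X hXN.inv hX.sc hl hX.equi hcl' hgen'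
  have hs : Simple X (NM V h M) := by
    constructor
    · intro a b hab n hn hna
      obtain ⟨c, hc⟩ := hd.nb a b hab
      have h3 : st b = st a := by
        rw [← hna]; exact hd.inv ⟨n, hn⟩ a
      rw [h3] at hc
      exact hc.ne rfl
    · intro x a b hxa hxb n hn hna
      obtain ⟨g, hg, hg'⟩ := hd.loc x a b hxa hxb (by
        rw [← hna]; exact (hd.inv ⟨n, hn⟩ a).symm)
      exact ⟨g, g.2, hg, hg'⟩
  have hquo : C (P ⧸ NM V h M) := quo_mem h2 hX hcc h M hM (fun v g => mem_NM h M) hgen hcl hs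
  refine trick hC hE h2 hX h hh M hM (NM V h M) ?_ hquo ?_
  · rintro v g hv ⟨k, hk⟩
    exact mem_NM h M hv ⟨k, hk⟩
  · refine hN _ _ X hXN.inv hX.sc hl hX.equi hcl' ?_ hgen' (h.comp (NM V h M).subtype) ?_
    · intro x y he g hg hg' hg1 g' hg2
      exact hfull x y he g g.2 hg hg' (fun h3 => hg1 (Subtype.ext h3)) g' g'.2 hg2
    · intro v g hv hg
      exact Subtype.ext (hh v g hv hg)

end Pool.Agent.H54.DD
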